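import Mathlib

set_option autoImplicit false

/-!
# Optimal `d`-intersecting families of chains never have all members through `X₀, …, X_{d-1}`

For `2 ≤ d ≤ n` the family of all chains containing `X₀, …, X_{d-2}` and `Xₙ = [n]` is larger than
the family of all chains containing `X₀, …, X_{d-1}`.
-/

namespace Pool.Agent.Results.MP_63ed06_co.NoInitialSegment

open Finset

/-- `X j = {1, …, j}` (the first `j` elements of `Fin n`). -/
def X (n j : ℕ) : Finset (Fin n) := univ.filter (fun v => v.val < j)

/-- A chain in `[n]`: a non-empty set of subsets of `[n]`, totally ordered by inclusion. -/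
def IsCh {n : ℕ} (C : Finset (Finset (Fin n))) : Prop :=
  C.Nonempty ∧ ∀ A ∈ C, ∀ B ∈ C, A ⊆ B ∨ B ⊆ A

/-- A `d`-intersecting family of chains: any two members (also equal ones) have at least `d`
common member sets. -/
def DInt {n : ℕ} (d : ℕ) (F : Finset (Finset (Finset (Fin n)))) : Prop :=
  (∀ C ∈ F, IsCh C) ∧ ∀ C ∈ F, ∀ C' ∈ F, d ≤ (C ∩ C').card

/-- An optimal `d`-intersecting family of chains. -/
def Optimal {n : ℕ} (d : ℕ) (F : Finset (Finset (Finset (Fin n)))) : Prop :=
  DInt d F ∧ ∀ G : Finset (Finset (Finset (Fin n))), DInt d G → G.card ≤ F.card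

variable {n : ℕ}

lemma X_subset {i j : ℕ} (h : i ≤ j) : X n i ⊆ X n j := by
  intro v hv
  simp only [X, mem_filter, mem_univ, true_and] at hv ⊢
  omega

lemma X_card {j : ℕ} (h : j ≤ n) : (X n j).card = j := by
  unfold X
  have : (univ.filter (fun v : Fin n => v.val < j)).card = (range j).card := by
    refine card_bij (fun v _ => v.val) ?_ ?_ ?_
    · intro v hv
      simp only [mem_filter, mem_univ, true_and] at hv
      exact mem_range.2 hv
    · intro a _ b _ hab
      exact Fin.ext hab
    · intro i hi
      rw [mem_range] at hi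
      exact ⟨⟨i, by omega⟩, by simp [hi], rfl⟩
  rw [this, card_range]

lemma X_univ : X n n = univ := by
  ext v
  simp [X]

open Classical in
/-- all chains containing `X₀, …, X_{d-1}` -/
noncomputable def famA (n d : ℕ) : Finset (Finset (Finset (Fin n))) :=
  univ.filter (fun C => IsCh C ∧ ∀ j < d, X n j ∈ C)

open Classical in
/-- all chains containing `X₀, …, X_{d-2}` and `Xₙ` -/
noncomputable def famB (n d : ℕ) : Finset (Finset (Finset (Fin n))) :=
  univ.filter (fun C => IsCh C ∧ (∀ j, j + 1 < d → X n j ∈ C) ∧ X n n ∈ C)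

open Classical in
/-- the injection -/
noncomputable def φ (n d : ℕ) (C : Finset (Finset (Fin n))) : Finset (Finset (Fin n)) :=
  if X n n ∈ C then C else insert (X n n) (C.erase (X n (d - 1)))

lemma card_lt {d : ℕ} (hd : 2 ≤ d) (hdn : d ≤ n) : (famA n d).card < (famB n d).card := by
  classical
  have hne : X n (d - 1) ≠ X n n := by
    intro h
    have := congrArg card h
    rw [X_card (by omega), X_card le_rfl] at this
    omega
  -- the exceptional chain
  set y : Fin n := ⟨n - 1, by omega⟩ with hy
  have hyX : y ∉ X n (d - 2) := by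
    simp only [X, mem_filter, mem_univ, true_and, hy]
    omega
  set Z : Finset (Fin n) := insert y (X n (d - 2)) with hZ
  have hZcard : Z.card = d - 1 := by
    rw [hZ, card_insert_of_notMem hyX, X_card (by omega)]
    omega
  have hZX : ¬ (Z ⊆ X n (d - 1) ∨ X n (d - 1) ⊆ Z) := by
    intro h
    have heq : Z = X n (d - 1) := by
      rcases h with h | h
      · exact eq_of_subset_of_card_le h (by rw [hZcard, X_card (by omega)])
      · exact (eq_of_subset_of_card_le h (by rw [hZcard, X_card (by omega)])).symm
    have : y ∈ X n (d - 1) := by rw [← heq, hZ]; exact mem_insert_self _ _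
    simp only [X, mem_filter, mem_univ, true_and, hy] at this
    omega
  set C₀ : Finset (Finset (Fin n)) := insert (X n n) (insert Z ((range (d - 1)).image (X n)))
    with hC₀
  have hC₀mem : ∀ A ∈ C₀, A = X n n ∨ A = Z ∨ ∃ j, j + 1 < d ∧ A = X n j := by
    intro A hA
    simp only [hC₀, mem_insert, mem_image, mem_range] at hA
    rcases hA with h | h | ⟨j, hj, h⟩
    · exact Or.inl h
    · exact Or.inr (Or.inl h)
    · exact Or.inr (Or.inr ⟨j, by omega, h.symm⟩)
  have htop : ∀ A : Finset (Fin n), A ⊆ X n n := by
    intro A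
    rw [X_univ]
    exact subset_univ _
  have hjZ : ∀ j, j + 1 < d → X n j ⊆ Z := by
    intro j hj
    exact (X_subset (by omega)).trans (subset_insert _ _)
  have hC₀B : C₀ ∈ famB n d := by
    simp only [famB, mem_filter, mem_univ, true_and]
    refine ⟨⟨⟨X n n, mem_insert_self _ _⟩, ?_⟩, ?_, mem_insert_self _ _⟩
    · intro A hA B hB
      rcases hC₀mem A hA with rfl | rfl | ⟨i, hi, rfl⟩ <;>
        rcases hC₀mem B hB with rfl | rfl | ⟨j, hj, rfl⟩
      · exact Or.inl (htop _)
      · exact Or.inr (htop _)
      · exact Or.inr (htop _)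
      · exact Or.inl (htop _)
      · exact Or.inl (Subset.refl _)
      · exact Or.inr (hjZ j hj)
      · exact Or.inl (htop _)
      · exact Or.inl (hjZ i hi)
      · rcases le_total i j with h | h
        · exact Or.inl (X_subset h)
        · exact Or.inr (X_subset h)
    · intro j hj
      exact mem_insert_of_mem (mem_insert_of_mem (mem_image.2 ⟨j, mem_range.2 (by omega), rfl⟩))
  have hmaps : ∀ C ∈ famA n d, φ n d C ∈ famB n d := by
    intro C hC
    simp only [famA, mem_filter, mem_univ, true_and] at hC
    obtain ⟨⟨_, hch⟩, hX⟩ := hC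
    simp only [famB, mem_filter, mem_univ, true_and]
    unfold φ
    split_ifs with h
    · exact ⟨⟨⟨_, h⟩, hch⟩, fun j hj => hX j (by omega), h⟩
    · refine ⟨⟨⟨_, mem_insert_self _ _⟩, ?_⟩, ?_, mem_insert_self _ _⟩
      · intro A hA B hB
        rw [mem_insert] at hA hB
        rcases hA with rfl | hA
        · exact Or.inr (htop _)
        · rcases hB with rfl | hB
          · exact Or.inl (htop _)
          · exact hch A (mem_of_mem_erase hA) B (mem_of_mem_erase hB)
      · intro j hj
        refine mem_insert_of_mem (mem_erase.2 ⟨?_, hX j (by omega)⟩)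
        intro h
        have := congrArg card h
        rw [X_card (by omega), X_card (by omega)] at this
        omega
  have hinj : Set.InjOn (φ n d) (famA n d : Set (Finset (Finset (Fin n)))) := by
    intro C hC C' hC' heq
    simp only [famA, coe_filter, mem_univ, true_and, Set.mem_ofPred_eq] at hC hC'
    have h1 : X n (d - 1) ∈ C := hC.2 _ (by omega)
    have h1' : X n (d - 1) ∈ C' := hC'.2 _ (by omega)
    unfold φ at heq
    split_ifs at heq with h h' h'
    · exact heq
    · exfalso
      rw [heq, mem_insert] at h1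
      rcases h1 with h1 | h1
      · exact hne h1
      · exact notMem_erase _ _ h1
    · exfalso
      rw [← heq, mem_insert] at h1'
      rcases h1' with h1' | h1'
      · exact hne h1'
      · exact notMem_erase _ _ h1'
    · have h2 : C.erase (X n (d - 1)) = C'.erase (X n (d - 1)) := by
        have e1 : (insert (X n n) (C.erase (X n (d - 1)))).erase (X n n)
            = C.erase (X n (d - 1)) :=
          erase_insert (fun hh => h (mem_of_mem_erase hh))
        have e2 : (insert (X n n) (C'.erase (X n (d - 1)))).erase (X n n)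
            = C'.erase (X n (d - 1)) :=
          erase_insert (fun hh => h' (mem_of_mem_erase hh))
        rw [← e1, heq, e2]
      rw [← insert_erase h1, h2, insert_erase h1']
  have hnot : ∀ C ∈ famA n d, φ n d C ≠ C₀ := by
    intro C hC heq
    simp only [famA, mem_filter, mem_univ, true_and] at hC
    have h1 : X n (d - 1) ∈ C := hC.2 _ (by omega)
    have hZC₀ : Z ∈ C₀ := mem_insert_of_mem (mem_insert_self _ _)
    have hZC : Z ∈ C := by
      rw [← heq] at hZC₀
      unfold φ at hZC₀
      split_ifs at hZC₀ with h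
      · exact hZC₀
      · rw [mem_insert] at hZC₀
        rcases hZC₀ with h' | h'
        · exfalso
          have := congrArg card h'
          rw [hZcard, X_card le_rfl] at this
          omega
        · exact mem_of_mem_erase h'
    exact hZX (hC.1.2 Z hZC _ h1)
  have himg : (famA n d).image (φ n d) ⊆ (famB n d).erase C₀ := by
    intro D hD
    rw [mem_image] at hD
    obtain ⟨C, hC, rfl⟩ := hD
    exact mem_erase.2 ⟨hnot C hC, hmaps C hC⟩
  have hc := card_le_card himg
  rw [card_image_of_injOn hinj, card_erase_of_mem hC₀B] at hc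
  have hpos : 0 < (famB n d).card := card_pos.2 ⟨_, hC₀B⟩
  omega

lemma famB_dInt {d : ℕ} (hd : 2 ≤ d) (hdn : d ≤ n) : DInt d (famB n d) := by
  classical
  refine ⟨?_, ?_⟩
  · intro C hC
    simp only [famB, mem_filter, mem_univ, true_and] at hC
    exact hC.1
  · intro C hC C' hC'
    simp only [famB, mem_filter, mem_univ, true_and] at hC hC'
    have hsub : insert (X n n) ((range (d - 1)).image (X n)) ⊆ C ∩ C' := by
      intro A hA
      simp only [mem_insert, mem_image, mem_range] at hA
      rw [mem_inter]
      rcases hA with rfl | ⟨j, hj, rfl⟩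
      · exact ⟨hC.2.2, hC'.2.2⟩
      · exact ⟨hC.2.1 j (by omega), hC'.2.1 j (by omega)⟩
    have hcard : (insert (X n n) ((range (d - 1)).image (X n))).card = d := by
      rw [card_insert_of_notMem, card_image_of_injOn, card_range]
      · omega
      · intro i hi j hj hij
        simp only [coe_range, Set.mem_Iio] at hi hj
        have := congrArg card hij
        rwa [X_card (by omega), X_card (by omega)] at this
      · intro h
        simp only [mem_image, mem_range] at h
        obtain ⟨j, hj, h⟩ := h
        have := congrArg card h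
        rw [X_card (by omega), X_card le_rfl] at this
        omega
    calc d = (insert (X n n) ((range (d - 1)).image (X n))).card := hcard.symm
      _ ≤ (C ∩ C').card := card_le_card hsub

/-- **Theorem.** (1) For `2 ≤ d ≤ n` no optimal `d`-intersecting family in `𝒞ₙ` consists only of
chains containing `X₀, …, X_{d-1}`.  (2) Hence the property asked for in Q1 fails for every
`0 < ε < 1` and every `n₀`. -/
theorem result :
    (∀ n d : ℕ, 2 ≤ d → d ≤ n → ¬ ∃ F : Finset (Finset (Finset (Fin n))),
      Optimal d F ∧ ∀ C ∈ F, ∀ j < d, X n j ∈ C) ∧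
    (∀ ε : ℝ, 0 < ε → ε < 1 → ¬ ∃ n₀ : ℕ, ∀ n ≥ n₀, ∀ d : ℕ, 1 ≤ d →
      (d : ℝ) ≤ n * (1 - ε) → ∃ F : Finset (Finset (Finset (Fin n))),
        Optimal d F ∧ ∀ C ∈ F, ∀ j < d, X n j ∈ C) := by
  classical
  have main : ∀ n d : ℕ, 2 ≤ d → d ≤ n → ¬ ∃ F : Finset (Finset (Finset (Fin n))),
      Optimal d F ∧ ∀ C ∈ F, ∀ j < d, X n j ∈ C := by
    rintro n d hd hdn ⟨F, hF, hX⟩
    have h1 : F ⊆ famA n d := by
      intro C hC
      simp only [famA, mem_filter, mem_univ, true_and]
      exact ⟨hF.1.1 C hC, hX C hC⟩
    have h2 := card_le_card h1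
    have h3 := card_lt hd hdn
    have h4 := hF.2 _ (famB_dInt hd hdn)
    omega
  refine ⟨main, ?_⟩
  rintro ε hε hε1 ⟨n₀, h⟩
  obtain ⟨m, hm⟩ := exists_nat_gt (2 / (1 - ε))
  have h1 : (0 : ℝ) < 1 - ε := by linarith
  have h2 : ((2 : ℕ) : ℝ) ≤ ((max n₀ (max m 2) : ℕ) : ℝ) * (1 - ε) := by
    have h3 : (2 : ℝ) / (1 - ε) ≤ ((max n₀ (max m 2) : ℕ) : ℝ) := by
      refine hm.le.trans ?_
      exact_mod_cast (le_max_left m 2).trans (le_max_right _ _)
    have := (div_le_iff₀ h1).1 h3
    exact_mod_cast this
  exact main _ 2 le_rfl ((le_max_right m 2).trans (le_max_right _ _))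
    (h _ (le_max_left _ _) 2 (by norm_num) h2)

end Pool.Agent.Results.MP_63ed06_co.NoInitialSegment
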